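import Pool.Agent.Y520.MB.Stm

/-!
Library Y815.MB (helper815), task MB-ELL of the project Y520.MB: a ball rolls freely in an ellipsoid.
-/

set_option autoImplicit false

namespace Pool.Agent.Y815.MB

open Pool.Agent.Y520.MB Set Filter Topology

/-- the quadratic function of an ellipsoid -/
noncomputable def qf (A : E4 ≃ᵃⁱ[ℝ] E4) (c : Fin 4 → ℝ) (p : E4) : ℝ := ∑ i, (A p i) ^ 2 / (c i) ^ 2

theorem qf_cont (A : E4 ≃ᵃⁱ[ℝ] E4) (c : Fin 4 → ℝ) : Continuous (qf A c) := by
  unfold qf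
  refine continuous_finset_sum _ fun i _ => ?_
  have h1 : Continuous fun p : E4 => A p i :=
    (EuclideanSpace.proj (𝕜 := ℝ) i).continuous.comp A.continuous
  exact (h1.pow 2).div_const _

theorem frontier_eq (A : E4 ≃ᵃⁱ[ℝ] E4) (c : Fin 4 → ℝ) (hc : ∀ i, 0 < c i) :
    frontier {p : E4 | qf A c p ≤ 1} = {p | qf A c p = 1} := by
  apply Subset.antisymm
  · exact frontier_le_subset_eq (qf_cont A c) continuous_const
  · intro p hp
    have hp' : qf A c p = 1 := hp
    have hcl : IsClosed {p : E4 | qf A c p ≤ 1} := isClosed_le (qf_cont A c) continuous_const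
    rw [hcl.frontier_eq]
    refine ⟨le_of_eq hp', fun hint => ?_⟩
    rw [mem_interior_iff_mem_nhds] at hint
    -- points outside
    set γ : ℝ → E4 := fun t => A.symm ((1 + t) • A p) with hγ
    have hγc : Continuous γ := by
      have h1 : Continuous fun t : ℝ => (1 + t) • A p := by fun_prop
      exact A.symm.continuous.comp h1
    have hγ0 : γ 0 = p := by simp [hγ]
    have h1 : ∀ᶠ t in 𝓝 (0 : ℝ), γ t ∈ {p : E4 | qf A c p ≤ 1} := by
      have := hγc.continuousAt (x := (0 : ℝ))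
      rw [ContinuousAt, hγ0] at this
      exact this hint
    obtain ⟨ε, hε, h2⟩ := Metric.eventually_nhds_iff.mp h1
    have h3 := h2 (y := ε / 2) (by rw [Real.dist_eq, sub_zero, abs_of_pos (by positivity)]; linarith)
    have h4 : qf A c (γ (ε / 2)) = (1 + ε / 2) ^ 2 := by
      have h5 : A (γ (ε / 2)) = (1 + ε / 2) • A p := A.apply_symm_apply _
      unfold qf at hp' ⊢
      rw [h5, ← mul_one ((1 + ε / 2) ^ 2), ← hp', Finset.mul_sum]
      refine Finset.sum_congr rfl fun i _ => ?_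
      rw [PiLp.smul_apply, smul_eq_mul]
      ring
    have h5 : qf A c (γ (ε / 2)) ≤ 1 := h3
    rw [h4] at h5
    nlinarith

theorem ell : S_ELL := by
  rintro c E ⟨A, hc, rfl⟩ r hr hrc
  set R := ∑ i, ∑ j, (c i) ^ 2 / (c j) with hRdef
  have hR : ∀ i j, (c i) ^ 2 ≤ R * c j := by
    intro i j
    rw [← div_le_iff₀ (hc j)]
    have h1 : (c i) ^ 2 / c j ≤ ∑ j, (c i) ^ 2 / (c j) :=
      Finset.single_le_sum (f := fun j => (c i) ^ 2 / (c j))
        (fun k _ => div_nonneg (sq_nonneg _) (hc k).le) (Finset.mem_univ j)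
    exact h1.trans (Finset.single_le_sum (f := fun i => ∑ j, (c i) ^ 2 / (c j))
      (fun k _ => Finset.sum_nonneg fun l _ => div_nonneg (sq_nonneg _) (hc l).le) (Finset.mem_univ i))
  have hR0 : 0 < R := by
    by_contra hcon
    push Not at hcon
    have h1 := hR 0 0
    have h2 := hc 0
    have h3 : 0 < c 0 ^ 2 := by positivity
    nlinarith
  refine ⟨R, {p | qf A c p ≤ 1}, ⟨hr, isClosed_le (qf_cont A c) continuous_const, ?_⟩, frontier_eq A c hc⟩
  intro p hp
  rw [frontier_eq A c hc] at hp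
  have hp' : ∑ i, (A p i) ^ 2 / (c i) ^ 2 = 1 := hp
  -- the normal
  set m : E4 := WithLp.toLp 2 (fun i => A p i / (c i) ^ 2) with hm
  have hmi : ∀ i, m i = A p i / (c i) ^ 2 := fun i => rfl
  have hm2 : ‖m‖ ^ 2 = ∑ i, (A p i) ^ 2 / (c i) ^ 4 := by
    rw [EuclideanSpace.real_norm_sq_eq]
    refine Finset.sum_congr rfl fun i _ => ?_
    rw [hmi, div_pow]
    ring
  -- bounds of the norm
  have hlow : ∀ i, r ≤ (c i) ^ 2 * ‖m‖ := by
    intro i
    have h1 : r ^ 2 ≤ ((c i) ^ 2 * ‖m‖) ^ 2 := by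
      rw [mul_pow, hm2, Finset.mul_sum]
      calc r ^ 2 = r ^ 2 * ∑ j, (A p j) ^ 2 / (c j) ^ 2 := by rw [hp', mul_one]
        _ = ∑ j, (r * c j) ^ 2 * ((A p j) ^ 2 / (c j) ^ 4) := by
          rw [Finset.mul_sum]
          refine Finset.sum_congr rfl fun j _ => ?_
          have := (hc j).ne'
          field_simp
        _ ≤ _ := by
          refine Finset.sum_le_sum fun j _ => ?_
          apply mul_le_mul_of_nonneg_right _ (by positivity)
          exact pow_le_pow_left₀ (mul_pos hr (hc j)).le (hrc j i) 2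
    exact (sq_le_sq₀ hr.le (by positivity)).mp h1
  have hupp : ∀ i, (c i) ^ 2 * ‖m‖ ≤ R := by
    intro i
    have h1 : ((c i) ^ 2 * ‖m‖) ^ 2 ≤ R ^ 2 := by
      rw [mul_pow, hm2, Finset.mul_sum]
      calc ∑ j, ((c i) ^ 2) ^ 2 * ((A p j) ^ 2 / (c j) ^ 4) ≤
          ∑ j, (R * c j) ^ 2 * ((A p j) ^ 2 / (c j) ^ 4) := by
            refine Finset.sum_le_sum fun j _ => ?_
            apply mul_le_mul_of_nonneg_right _ (by positivity)
            exact pow_le_pow_left₀ (sq_nonneg _) (hR i j) 2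
        _ = R ^ 2 * ∑ j, (A p j) ^ 2 / (c j) ^ 2 := by
          rw [Finset.mul_sum]
          refine Finset.sum_congr rfl fun j _ => ?_
          have := (hc j).ne'
          field_simp
        _ = R ^ 2 := by rw [hp', mul_one]
    exact (sq_le_sq₀ (by positivity) hR0.le).mp h1
  have hm0 : 0 < ‖m‖ := by
    by_contra hcon
    push Not at hcon
    have h1 := hlow 0
    have h2 : 0 < c 0 ^ 2 := by have := hc 0; positivity
    nlinarith
  set L := A.linearIsometryEquiv with hL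
  have hAu : ∀ z, L (z - p) = A z - A p := fun z => A.map_vsub z p
  set ν : E4 := L.symm (‖m‖⁻¹ • m) with hν
  have hν1 : ‖ν‖ = 1 := by
    rw [hν, L.symm.norm_map, norm_smul, norm_inv, norm_norm, inv_mul_cancel₀ hm0.ne']
  have hin : ∀ z, (inner ℝ (A z - A p) m : ℝ) = ∑ i, (A z i - A p i) * (A p i / (c i) ^ 2) := by
    intro z
    rw [PiLp.inner_apply]
    refine Finset.sum_congr rfl fun i _ => ?_
    rw [hmi, PiLp.sub_apply]
    simp [mul_comm]
  have hball : ∀ s : ℝ, 0 < s → ∀ z, z ∈ Metric.closedBall (p - s • ν) s ↔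
      ‖A z - A p‖ ^ 2 + 2 * s * ‖m‖⁻¹ * inner ℝ (A z - A p) m ≤ 0 := by
    intro s hs z
    have h1 : ‖z - (p - s • ν)‖ = ‖(A z - A p) + (s * ‖m‖⁻¹) • m‖ := by
      rw [← L.norm_map, show z - (p - s • ν) = (z - p) + s • ν by abel, map_add, hAu, map_smul, hν,
        L.apply_symm_apply, smul_smul]
    have h2 : ‖(A z - A p) + (s * ‖m‖⁻¹) • m‖ ^ 2 = ‖A z - A p‖ ^ 2 + 2 * s * ‖m‖⁻¹ *
        inner ℝ (A z - A p) m + s ^ 2 := by
      have e : s * ‖m‖⁻¹ * ‖m‖ = s := by field_simp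
      rw [norm_add_sq_real, inner_smul_right, norm_smul, Real.norm_eq_abs,
        abs_of_pos (mul_pos hs (inv_pos.mpr hm0)), e]
      ring
    rw [mem_closedBall_iff_norm, h1, ← sq_le_sq₀ (norm_nonneg _) hs.le, h2]
    constructor <;> intro h <;> linarith
  have hq : ∀ z, qf A c z = 1 + 2 * inner ℝ (A z - A p) m + ∑ i, (A z i - A p i) ^ 2 / (c i) ^ 2 := by
    intro z
    rw [hin, ← hp', Finset.mul_sum, ← Finset.sum_add_distrib, ← Finset.sum_add_distrib]
    unfold qf
    refine Finset.sum_congr rfl fun i _ => ?_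
    ring
  have hu2 : ∀ z, ‖A z - A p‖ ^ 2 = ∑ i, (A z i - A p i) ^ 2 := by
    intro z
    rw [EuclideanSpace.real_norm_sq_eq]
    rfl
  refine ⟨ν, hν1, ?_, ?_⟩
  · intro z hz
    rw [hball r hr] at hz
    show qf A c z ≤ 1
    have h1 : r * ∑ i, (A z i - A p i) ^ 2 / (c i) ^ 2 ≤ ‖m‖ * ‖A z - A p‖ ^ 2 := by
      rw [hu2, Finset.mul_sum, Finset.mul_sum]
      refine Finset.sum_le_sum fun i _ => ?_
      have hci : 0 < (c i) ^ 2 := by have := hc i; positivity
      rw [mul_div_assoc', div_le_iff₀ hci]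
      nlinarith [mul_le_mul_of_nonneg_right (hlow i) (sq_nonneg (A z i - A p i))]
    have h2 : ‖m‖ * ‖A z - A p‖ ^ 2 + 2 * r * inner ℝ (A z - A p) m ≤ 0 := by
      have h3 := mul_le_mul_of_nonneg_left hz hm0.le
      have h4 : ‖m‖ * (‖A z - A p‖ ^ 2 + 2 * r * ‖m‖⁻¹ * inner ℝ (A z - A p) m) =
          ‖m‖ * ‖A z - A p‖ ^ 2 + 2 * r * inner ℝ (A z - A p) m := by
        field_simp
      rw [h4, mul_zero] at h3
      exact h3
    rw [hq]
    by_contra hcon
    push Not at hcon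
    nlinarith
  · intro z hz
    have hz' : qf A c z ≤ 1 := hz
    rw [hball R hR0]
    rw [hq] at hz'
    have h1 : ‖m‖ * ‖A z - A p‖ ^ 2 ≤ R * ∑ i, (A z i - A p i) ^ 2 / (c i) ^ 2 := by
      rw [hu2, Finset.mul_sum, Finset.mul_sum]
      refine Finset.sum_le_sum fun i _ => ?_
      have hci : 0 < (c i) ^ 2 := by have := hc i; positivity
      rw [mul_div_assoc', le_div_iff₀ hci]
      nlinarith [mul_le_mul_of_nonneg_right (hupp i) (sq_nonneg (A z i - A p i))]
    have h2 : ‖m‖ * ‖A z - A p‖ ^ 2 + 2 * R * inner ℝ (A z - A p) m ≤ 0 := by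
      nlinarith
    have h4 : ‖m‖ * (‖A z - A p‖ ^ 2 + 2 * R * ‖m‖⁻¹ * inner ℝ (A z - A p) m) =
        ‖m‖ * ‖A z - A p‖ ^ 2 + 2 * R * inner ℝ (A z - A p) m := by
      field_simp
    by_contra hcon
    push Not at hcon
    have h5 := mul_pos hm0 hcon
    rw [h4] at h5
    linarith

end Pool.Agent.Y815.MB
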